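import Pool.Agent.TH266.NS.Defs2
import Pool.Agent.TH603.EL.Van3

/-!
# Rank transfer along a family (job 4097 of helper266, written by helper558)
-/

set_option autoImplicit false

namespace Pool.Agent.TH266.NS

open Pool.Agent.TH603.EL Pool.Agent.TH880.NB Pool.Agent.TH176.Nag

section tr
variable {F : Type} [Field F]

theorem evU_add (U V : HR F) (P Q : (ℤ × ℤ) →₀ HK F) :
    evU U V (P + Q) = evU U V P + evU U V Q := by
  unfold evU
  exact Finsupp.sum_add_index' (by simp) (fun _ _ _ => by rw [map_add, add_mul])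

theorem evU_zero (U V : HR F) : evU U V (0 : (ℤ × ℤ) →₀ HK F) = 0 := by
  unfold evU
  exact Finsupp.sum_zero_index

theorem evU_smul (U V : HR F) (c : HK F) (P : (ℤ × ℤ) →₀ HK F) :
    evU U V (c • P) = incl c * evU U V P := by
  unfold evU
  rw [Finsupp.sum_smul_index (by simp), Finsupp.mul_sum]
  apply Finsupp.sum_congr
  intro m _
  rw [map_mul]
  ring

theorem evU_sum (U V : HR F) {κ : Type} (s : Finset κ) (P : κ → (ℤ × ℤ) →₀ HK F) :
    evU U V (∑ k ∈ s, P k) = ∑ k ∈ s, evU U V (P k) := by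
  classical
  induction s using Finset.induction_on with
  | empty => simp [evU_zero]
  | insert a s ha ih => rw [Finset.sum_insert ha, Finset.sum_insert ha, evU_add, ih]

theorem incl_coeff (c : HK F) (a : ℝ) :
    (incl c).coeff a = AddMonoidAlgebra.single 0 (c.coeff a) := by
  classical
  ext ⟨i, j⟩
  have h := cf_incl c a i j
  unfold cf at h
  rw [h]
  have h2 : ((0 : ℤ × ℤ) = (i, j)) ↔ (i = 0 ∧ j = 0) := by
    rw [Prod.ext_iff]
    simp only [Prod.fst_zero, Prod.snd_zero]
    constructor <;> rintro ⟨h1, h2⟩ <;> exact ⟨h1.symm, h2.symm⟩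
  simp [Finsupp.single_apply, h2]

/-- the three coordinates `1, U, V` -/
noncomputable def tri (U V : HR F) (l : ZMod 3) : HR F :=
  if l = 0 then 1 else if l = 1 then U else V

theorem tri0 (U V : HR F) : tri U V 0 = 1 := by
  unfold tri; rw [if_pos rfl]

theorem tri1 (U V : HR F) : tri U V 1 = U := by
  unfold tri; rw [if_neg (by decide), if_pos rfl]

theorem tri2 (U V : HR F) : tri U V 2 = V := by
  unfold tri; rw [if_neg (by decide), if_neg (by decide)]

theorem ev_tri (U V : HR F) (d : ℕ) (f : (ℤ × ℤ) →₀ HK F) :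
    ev (tri U V) (hom d f) = evU U V f := by
  unfold hom evU Finsupp.sum
  rw [map_sum]
  apply Finset.sum_congr rfl
  intro m _
  rw [map_mul, map_mul, map_mul, map_pow, map_pow, map_pow, ev_C, ev_X, ev_X, ev_X, tri0, tri1,
    tri2, one_pow, one_mul]

theorem exists_min_order {κ : Type} [Fintype κ] {c : κ → HK F} (hc : c ≠ 0) :
    ∃ b : ℝ, (∀ j, Low (c j) b) ∧ ∃ j, (c j).coeff b ≠ 0 := by
  classical
  have h1 : (Finset.univ.filter fun j => c j ≠ 0).Nonempty := by
    by_contra h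
    apply hc
    funext j
    by_contra hj
    apply h
    exact ⟨j, Finset.mem_filter.2 ⟨Finset.mem_univ _, hj⟩⟩
  obtain ⟨j0, hj0, hmin⟩ := Finset.exists_min_image _ (fun j => (c j).order) h1
  have h2 : c j0 ≠ 0 := (Finset.mem_filter.1 hj0).2
  refine ⟨(c j0).order, ?_, j0, fun h => h2 (HahnSeries.coeff_order_eq_zero.1 h)⟩
  intro j a ha
  by_cases hj : c j = 0
  · rw [hj, HahnSeries.coeff_zero]
  · exact HahnSeries.coeff_eq_zero_of_lt_order
      (ha.trans_le (hmin j (Finset.mem_filter.2 ⟨Finset.mem_univ _, hj⟩)))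

end tr

theorem Rk_of_family {F : Type} [Field F] [CharZero F] {ι : Type} {w : ι → ℕ} {U V : HR F}
    (hUV : ∀ {p q : F} (hp : p ≠ 0) (hq : q ≠ 0), evp hp hq U ≠ 0 ∧ evp hp hq V ≠ 0)
    {x y : ι → F} (hx : ∀ i, x i ≠ 0) (hy : ∀ i, y i ≠ 0) (T : Finset (ℤ × ℤ))
    (hT : ∀ f : (ℤ × ℤ) →₀ F, (↑f.support : Set (ℤ × ℤ)) ⊆ ↑T →
      (∀ i, LM f (x i) (y i) (w i)) → f = 0)
    {S : Set (ℤ × ℤ)} (hS : ∀ m ∈ S, 0 ≤ m.1 ∧ 0 ≤ m.2)
    (hP : ∀ m ∈ T, ∃ P : (ℤ × ℤ) →₀ HK F, (↑P.support : Set (ℤ × ℤ)) ⊆ S ∧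
      Low (evU U V P) 0 ∧ (evU U V P).coeff 0 = AddMonoidAlgebra.single m 1) :
    Rk w S T.card := by
  classical
  have hchar : CharZero (HK F) :=
    charZero_of_injective_ringHom (f := (HahnSeries.C : F →+* HK F)) HahnSeries.C_injective
  choose! P hPS hPL hPc using hP
  have hcoe := Fintype.card_coe T
  rw [← hcoe]
  refine Rk_of_vectors (K := HK F) (x := fun i => evp (hx i) (hy i) U)
    (y := fun i => evp (hx i) (hy i) V) (fun i => (hUV (hx i) (hy i)).1)
    (fun i => (hUV (hx i) (hy i)).2) (J := T) (fun j => P j) (fun j => hPS j j.2) ?_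
  intro c hc
  by_contra hne
  obtain ⟨b, hb, j0, hj0⟩ := exists_min_order hne
  obtain ⟨f, hf⟩ : ∃ f : (ℤ × ℤ) →₀ HK F, f = ∑ j : T, c j • P j := ⟨_, rfl⟩
  rw [← hf] at hc
  have hsupp : ∀ m ∈ f.support, m ∈ S := by
    intro m hm
    rw [hf, Finsupp.mem_support_iff, Finsupp.coe_finsetSum, Finset.sum_apply] at hm
    obtain ⟨j, -, hj⟩ := Finset.exists_ne_zero_of_sum_ne_zero hm
    apply hPS j j.2
    rw [Finset.mem_coe, Finsupp.mem_support_iff]
    intro h
    apply hj
    rw [Finsupp.smul_apply, h, smul_zero]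
  obtain ⟨d, hd⟩ : ∃ d : ℕ, ∀ m ∈ f.support, m.1 + m.2 ≤ (d : ℤ) := by
    refine ⟨f.support.sup fun m => (m.1 + m.2).toNat, fun m hm => ?_⟩
    have h1 : (m.1 + m.2).toNat ≤ f.support.sup fun m => (m.1 + m.2).toNat :=
      Finset.le_sup (f := fun m : ℤ × ℤ => (m.1 + m.2).toNat) hm
    have h2 : m.1 + m.2 ≤ ((m.1 + m.2).toNat : ℤ) := Int.self_le_toNat _
    exact h2.trans (by exact_mod_cast h1)
  have hcoef : (evU U V f).coeff b = ∑ j : T, AddMonoidAlgebra.single (j : ℤ × ℤ)
      ((c j).coeff b) := by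
    rw [hf, evU_sum, HahnSeries.coeff_sum]
    apply Finset.sum_congr rfl
    intro j _
    have h1 := (hb j).incl.coeff_mul (hPL j j.2)
    rw [add_zero] at h1
    rw [evU_smul, h1, hPc j j.2, incl_coeff, AddMonoidAlgebra.single_mul_single, zero_add, mul_one]
  have hval : ∀ m : ℤ × ℤ, ((evU U V f).coeff b).coeff m =
      ∑ j : T, if (j : ℤ × ℤ) = m then (c j).coeff b else 0 := by
    intro m
    rw [hcoef]
    simp [Finsupp.single_apply]
  have hzero : ((evU U V f).coeff b).coeff = 0 := by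
    apply hT
    · intro m hm
      by_contra hmT
      rw [Finset.mem_coe, Finsupp.mem_support_iff] at hm
      apply hm
      rw [hval]
      apply Finset.sum_eq_zero
      intro j _
      rw [if_neg]
      intro h
      exact hmT (h ▸ j.2)
    · intro i
      have h0 : ∀ l, evp (hx i) (hy i) (tri U V l) ≠ 0 := by
        intro l
        unfold tri
        split_ifs
        · rw [map_one]; exact one_ne_zero
        · exact (hUV (hx i) (hy i)).1
        · exact (hUV (hx i) (hy i)).2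
      have h1 := LM_transfer (hx i) (hy i) h0 (d := d) (f := f)
        (fun m hm => ⟨(hS m (hsupp m hm)).1, (hS m (hsupp m hm)).2, hd m hm⟩) (w := w i)
        (by rw [tri0, tri1, tri2, map_one, div_one, div_one]; exact hc i) b
      rw [ev_tri] at h1
      exact h1
  apply hj0
  have h2 := hval j0
  rw [hzero, Finset.sum_eq_single j0] at h2
  · rw [if_pos rfl] at h2
    rw [← h2]
    rfl
  · intro j _ hj
    rw [if_neg]
    intro h
    exact hj (Subtype.ext h)
  · intro h; exact absurd (Finset.mem_univ _) h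

end Pool.Agent.TH266.NS
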